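import Pool.Agent.Q80.EW.Stm

set_option autoImplicit false

/-! Project EW (helper80), basic lemmas (helper153): multiplicativity and Euler products. -/

namespace Pool.Agent.Q153.EW

open Filter Topology MeasureTheory
open Pool.Agent.Q80.EW

noncomputable section

theorem mul_pp (f g : ArithmeticFunction ℂ) {p : ℕ} (hp : p.Prime) (k : ℕ) :
    (f * g) (p ^ k) = ∑ i ∈ Finset.range (k + 1), f (p ^ i) * g (p ^ (k - i)) := by
  rw [ArithmeticFunction.mul_apply,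
    Nat.sum_divisorsAntidiagonal (f := fun a b => f a * g b), Nat.sum_divisors_prime_pow hp]
  refine Finset.sum_congr rfl fun i hi => ?_
  rw [Nat.pow_div (by have := Finset.mem_range.mp hi; omega) hp.pos]

theorem sm_apply (Z n : ℕ) : sm Z n = if n ∈ Nat.smoothNumbers Z then 1 else 0 := rfl

theorem smooth_mul_iff (Z m n : ℕ) :
    m * n ∈ Nat.smoothNumbers Z ↔ m ∈ Nat.smoothNumbers Z ∧ n ∈ Nat.smoothNumbers Z :=
  ⟨fun h => ⟨Nat.mem_smoothNumbers_of_dvd h (dvd_mul_right m n),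
    Nat.mem_smoothNumbers_of_dvd h (dvd_mul_left n m)⟩, fun h => Nat.mul_mem_smoothNumbers h.1 h.2⟩

theorem one_smooth (Z : ℕ) : 1 ∈ Nat.smoothNumbers Z := by
  rw [Nat.mem_smoothNumbers']
  intro p hp hpd
  exact absurd (Nat.dvd_one.mp hpd) hp.one_lt.ne'

theorem sm_mult (Z : ℕ) : (sm Z).IsMultiplicative := by
  refine ⟨?_, fun {m n} _ => ?_⟩
  · rw [sm_apply, if_pos (one_smooth Z)]
  · rw [sm_apply, sm_apply, sm_apply]
    by_cases h1 : m ∈ Nat.smoothNumbers Z <;> by_cases h2 : n ∈ Nat.smoothNumbers Z <;>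
      simp [smooth_mul_iff, h1, h2]

theorem sh_apply (h : ℝ) (f : ArithmeticFunction ℂ) (n : ℕ) :
    sh h f n = f n * (n : ℂ) ^ (-((h : ℂ) * Complex.I)) := rfl

theorem sh_mult (h : ℝ) {f : ArithmeticFunction ℂ} (hf : f.IsMultiplicative) :
    (sh h f).IsMultiplicative := by
  refine ⟨?_, fun {m n} hmn => ?_⟩
  · rw [sh_apply, hf.1]
    simp
  · rw [sh_apply, sh_apply, sh_apply, hf.2 hmn, Nat.cast_mul, Complex.natCast_mul_natCast_cpow]
    ring

theorem ex_apply (v : ℕ → ℝ) {n : ℕ} (hn : n ≠ 0) : ex v n =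
    ((n.factorization.prod fun p a => v p ^ a / (a.factorial : ℝ) : ℝ) : ℂ) := by
  change (if n = 0 then (0 : ℂ) else _) = _
  rw [if_neg hn]

theorem ex_mult (v : ℕ → ℝ) : (ex v).IsMultiplicative := by
  refine ⟨?_, fun {m n} hmn => ?_⟩
  · rw [ex_apply v one_ne_zero]
    simp
  · rcases eq_or_ne m 0 with rfl | hm
    · simp
    rcases eq_or_ne n 0 with rfl | hn
    · simp
    rw [ex_apply v (mul_ne_zero hm hn), ex_apply v hm, ex_apply v hn, ← Complex.ofReal_mul,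
      Nat.factorization_mul hm hn, Finsupp.prod_add_index_of_disjoint]
    exact Nat.Coprime.disjoint_primeFactors hmn

theorem ex_pp (v : ℕ → ℝ) {p : ℕ} (hp : p.Prime) (k : ℕ) :
    ex v (p ^ k) = ((v p ^ k / (k.factorial : ℝ) : ℝ) : ℂ) := by
  rw [ex_apply v (pow_ne_zero k hp.ne_zero), hp.factorization_pow]
  rw [Finsupp.prod_single_index]
  simp

theorem euler {Z : ℕ} {F : ℕ → ℝ} (h1 : F 1 = 1)
    (hmul : ∀ {m n : ℕ}, Nat.Coprime m n → F (m * n) = F m * F n) (hpos : ∀ n, 0 ≤ F n)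
    (hsum : ∀ p : ℕ, p.Prime → p < Z → Summable fun k : ℕ => F (p ^ k))
    (hsupp : ∀ n, F n ≠ 0 → n ∈ Nat.smoothNumbers Z) :
    HasSum F (∏ p ∈ Z.primesBelow, ∑' k : ℕ, F (p ^ k)) := by
  have hs : ∀ {p : ℕ}, p.Prime → Summable (fun k : ℕ => ‖F (p ^ k)‖) := by
    intro p hp
    have e : (fun k : ℕ => ‖F (p ^ k)‖) = fun k : ℕ => F (p ^ k) := by
      funext k
      rw [Real.norm_eq_abs, abs_of_nonneg (hpos _)]
    rw [e]
    by_cases hZ : p < Z
    · exact hsum p hp hZ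
    · refine summable_of_ne_finset_zero (s := {0}) fun k hk => ?_
      by_contra hne
      rw [Finset.mem_singleton] at hk
      exact hZ (Nat.mem_smoothNumbers'.mp (hsupp _ hne) p hp (dvd_pow_self p hk))
  have h := (EulerProduct.summable_and_hasSum_smoothNumbers_prod_primesBelow_tsum h1 hmul hs Z).2
  refine (hasSum_subtype_iff_of_support_subset ?_).mp h
  intro n hn
  exact hsupp n hn

theorem nm_euler {Z : ℕ} {f : ArithmeticFunction ℂ} (hf : f.IsMultiplicative)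
    (hsupp : ∀ n, f n ≠ 0 → n ∈ Nat.smoothNumbers Z) (L : ℕ → ℝ)
    (hL : ∀ p : ℕ, p.Prime → p < Z → HasSum (fun k : ℕ => ‖f (p ^ k)‖ ^ 2 * (1 / (p : ℝ)) ^ k) (L p)) :
    HasSum (fun n : ℕ => ‖f n‖ ^ 2 / (n : ℝ)) (∏ p ∈ Z.primesBelow, L p) := by
  have e : ∀ p k : ℕ, ‖f (p ^ k)‖ ^ 2 / ((p ^ k : ℕ) : ℝ) = ‖f (p ^ k)‖ ^ 2 * (1 / (p : ℝ)) ^ k := by
    intro p k
    push_cast
    rw [one_div, inv_pow, div_eq_mul_inv]
  have h := euler (Z := Z) (F := fun n : ℕ => ‖f n‖ ^ 2 / (n : ℝ)) (by simp [hf.1])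
    (by
      intro m n hmn
      rw [hf.2 hmn, norm_mul]
      push_cast
      rw [mul_pow, mul_div_mul_comm]) (fun n => by positivity)
    (by
      intro p hp hpZ
      exact (hL p hp hpZ).summable.congr fun k => (e p k).symm)
    (by
      intro n hn
      refine hsupp n fun h0 => hn ?_
      simp only [h0, norm_zero]
      simp)
  have e2 : ∏ p ∈ Z.primesBelow, ∑' k : ℕ, ‖f (p ^ k)‖ ^ 2 / ((p ^ k : ℕ) : ℝ) =
      ∏ p ∈ Z.primesBelow, L p := by
    refine Finset.prod_congr rfl fun p hp => ?_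
    rw [← (hL p (Nat.prime_of_mem_primesBelow hp) (Nat.lt_of_mem_primesBelow hp)).tsum_eq]
    exact tsum_congr fun k => e p k
  rw [← e2]
  exact h

theorem pp_smooth {Z p : ℕ} (hp : p.Prime) (hpZ : p < Z) (k : ℕ) : p ^ k ∈ Nat.smoothNumbers Z := by
  rw [Nat.mem_smoothNumbers']
  intro q hq hqd
  rw [(Nat.prime_dvd_prime_iff_eq hq hp).mp (hq.dvd_of_dvd_pow hqd)]
  exact hpZ

theorem mul_supp {Z : ℕ} {f g : ArithmeticFunction ℂ} (hf : ∀ n, f n ≠ 0 → n ∈ Nat.smoothNumbers Z)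
    (hg : ∀ n, g n ≠ 0 → n ∈ Nat.smoothNumbers Z) : ∀ n, (f * g) n ≠ 0 → n ∈ Nat.smoothNumbers Z := by
  intro n hn
  rw [ArithmeticFunction.mul_apply] at hn
  obtain ⟨x, hx, hx0⟩ := Finset.exists_ne_zero_of_sum_ne_zero hn
  rw [Nat.mem_divisorsAntidiagonal] at hx
  rw [← hx.1, smooth_mul_iff]
  exact ⟨hf _ (left_ne_zero_of_mul hx0), hg _ (right_ne_zero_of_mul hx0)⟩

theorem sm_supp (Z : ℕ) : ∀ n, sm Z n ≠ 0 → n ∈ Nat.smoothNumbers Z := by
  intro n hn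
  rw [sm_apply] at hn
  by_contra h
  exact hn (if_neg h)

theorem sh_supp {Z : ℕ} (h : ℝ) {f : ArithmeticFunction ℂ}
    (hf : ∀ n, f n ≠ 0 → n ∈ Nat.smoothNumbers Z) : ∀ n, sh h f n ≠ 0 → n ∈ Nat.smoothNumbers Z := by
  intro n hn
  rw [sh_apply] at hn
  exact hf n (left_ne_zero_of_mul hn)

end

end Pool.Agent.Q153.EW
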