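import Pool.Agent.Q153.EW.Base

set_option autoImplicit false

/-! Project EW (helper80), job E3 (helper153). -/

namespace Pool.Agent.Q153.EW

open Filter Topology MeasureTheory
open Pool.Agent.Q80.EW

noncomputable section

theorem ex_zero : ex 0 = 1 := by
  ext n
  rcases eq_or_ne n 0 with rfl | hn
  · simp
  · rw [ex_apply 0 hn]
    rcases eq_or_ne n 1 with rfl | h1
    · simp
    · obtain ⟨p, hp, hpd⟩ := Nat.exists_prime_and_dvd h1
      rw [ArithmeticFunction.one_apply_ne h1]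
      have hmem : p ∈ n.factorization.support := by
        rw [Nat.support_factorization, Nat.mem_primeFactors]
        exact ⟨hp, hpd, hn⟩
      have h0 : (n.factorization.prod fun p a => (0 : ℕ → ℝ) p ^ a / (a.factorial : ℝ)) = 0 := by
        refine Finset.prod_eq_zero hmem ?_
        have : n.factorization p ≠ 0 := Finsupp.mem_support_iff.mp hmem
        simp [this]
      rw [h0]
      simp

theorem sh_one (h : ℝ) : sh h 1 = 1 := by
  ext n
  rw [sh_apply]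
  rcases eq_or_ne n 1 with rfl | h1
  · simp
  · rw [ArithmeticFunction.one_apply_ne h1]
    simp

theorem GG10 (Z : ℕ) (h : ℝ) : GG 1 0 Z h 0 0 = sm Z := by
  unfold GG
  rw [ex_zero, sh_one, pow_one, pow_zero, mul_one, mul_one, mul_one]

theorem GG11 (Z : ℕ) (h : ℝ) : GG 1 1 Z h 0 0 = sm Z * sh h (sm Z) := by
  unfold GG
  rw [ex_zero, sh_one, pow_one, pow_one, mul_one, mul_one]

theorem om_pow (p : ℕ) (h : ℝ) (j : ℕ) : ((p ^ j : ℕ) : ℂ) ^ (-((h : ℂ) * Complex.I)) =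
    ((p : ℂ) ^ (-((h : ℂ) * Complex.I))) ^ j := by
  induction j with
  | zero => simp
  | succ j ih => rw [pow_succ, Nat.cast_mul, Complex.natCast_mul_natCast_cpow, ih, pow_succ]

theorem om_norm {p : ℕ} (hp : 0 < p) (h : ℝ) : ‖(p : ℂ) ^ (-((h : ℂ) * Complex.I))‖ = 1 := by
  rw [Complex.norm_natCast_cpow_of_pos hp]
  simp

/-- the local series -/
theorem local_sum {ω : ℂ} (hω : ‖ω‖ = 1) {x : ℝ} (hx0 : 0 ≤ x) (hx1 : x < 1) :
    HasSum (fun k : ℕ => ‖∑ i ∈ Finset.range (k + 1), ω ^ i‖ ^ 2 * x ^ k)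
      ((1 - x ^ 2) / ((1 - x) ^ 2 * ‖1 - ω * x‖ ^ 2)) := by
  set s : ℕ → ℂ := fun k => ∑ i ∈ Finset.range (k + 1), ω ^ i with hs
  have hs0 : s 0 = 1 := by simp [hs]
  have hss : ∀ k, s (k + 1) = 1 + ω * s k := by
    intro k
    simp only [hs]
    rw [geom_sum_succ, add_comm]
  have hsn : ∀ k, ‖s k‖ ≤ (k : ℝ) + 1 := by
    intro k
    refine (norm_sum_le _ _).trans ?_
    simp [hω]
  have hxn : ‖x‖ < 1 := by rwa [Real.norm_eq_abs, abs_of_nonneg hx0]
  have hsum0 : Summable fun k : ℕ => x ^ k := summable_geometric_of_lt_one hx0 hx1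
  have hsum1 : Summable fun k : ℕ => (k : ℝ) ^ 1 * x ^ k := summable_pow_mul_geometric_of_norm_lt_one 1 hxn
  have hsum2 : Summable fun k : ℕ => (k : ℝ) ^ 2 * x ^ k := summable_pow_mul_geometric_of_norm_lt_one 2 hxn
  have hS1 : Summable fun k : ℕ => s k * (x : ℂ) ^ k := by
    refine Summable.of_norm_bounded (hsum1.add hsum0) fun k => ?_
    rw [norm_mul, norm_pow, Complex.norm_real, Real.norm_eq_abs, abs_of_nonneg hx0]
    have := mul_le_mul_of_nonneg_right (hsn k) (pow_nonneg hx0 k)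
    linarith [this]
  have hS2 : Summable fun k : ℕ => ‖s k‖ ^ 2 * x ^ k := by
    refine Summable.of_nonneg_of_le (fun k => by positivity) (fun k => ?_)
      ((hsum2.add (hsum1.mul_left 2)).add hsum0)
    have h1 : ‖s k‖ ^ 2 ≤ ((k : ℝ) + 1) ^ 2 := pow_le_pow_left₀ (norm_nonneg _) (hsn k) 2
    have := mul_le_mul_of_nonneg_right h1 (pow_nonneg hx0 k)
    nlinarith [this]
  set G : ℂ := ∑' k : ℕ, s k * (x : ℂ) ^ k with hG
  set S : ℝ := ∑' k : ℕ, ‖s k‖ ^ 2 * x ^ k with hS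
  have hgeo : ∑' k : ℕ, (x : ℂ) ^ k = (1 - (x : ℂ))⁻¹ := by
    refine tsum_geometric_of_norm_lt_one ?_
    rwa [Complex.norm_real]
  have hsgeo : Summable fun k : ℕ => (x : ℂ) ^ k := by
    refine summable_geometric_of_norm_lt_one ?_
    rwa [Complex.norm_real]
  have hgeor : ∑' k : ℕ, x ^ k = (1 - x)⁻¹ := tsum_geometric_of_lt_one hx0 hx1
  have hGeq : G = 1 + ((x : ℂ) * (1 - (x : ℂ))⁻¹ + ω * x * G) := by
    have h0 : G = s 0 * (x : ℂ) ^ 0 + ∑' k : ℕ, s (k + 1) * (x : ℂ) ^ (k + 1) :=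
      hS1.tsum_eq_zero_add
    have h1 := (hsgeo.hasSum.mul_left (x : ℂ)).add (hS1.hasSum.mul_left (ω * x))
    rw [hgeo] at h1
    have h2 : ∑' k : ℕ, s (k + 1) * (x : ℂ) ^ (k + 1) = (x : ℂ) * (1 - (x : ℂ))⁻¹ + ω * x * G := by
      rw [hG, ← h1.tsum_eq]
      refine tsum_congr fun k => ?_
      rw [hss]
      ring
    rw [h2, hs0, pow_zero, mul_one] at h0
    exact h0
  have hnorm : ∀ k, ‖s (k + 1)‖ ^ 2 = 1 + ‖s k‖ ^ 2 + 2 * (ω * s k).re := by
    intro k
    have e1 : ‖ω * s k‖ ^ 2 = ‖s k‖ ^ 2 := by rw [norm_mul, hω, one_mul]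
    rw [hss, ← e1, ← Complex.normSq_eq_norm_sq, ← Complex.normSq_eq_norm_sq, Complex.normSq_add]
    simp
  have hReG : Summable fun k : ℕ => (ω * s k).re * x ^ k := by
    have := Complex.reCLM.summable (hS1.mul_left ω)
    refine this.congr fun k => ?_
    rw [Complex.reCLM_apply, ← mul_assoc, ← Complex.ofReal_pow, Complex.re_mul_ofReal]
  have hReG' : ∑' k : ℕ, (ω * s k).re * x ^ k = (ω * G).re := by
    rw [hG, ← tsum_mul_left, ← Complex.reCLM_apply, Complex.reCLM.map_tsum (hS1.mul_left ω)]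
    refine tsum_congr fun k => ?_
    rw [Complex.reCLM_apply, ← mul_assoc, ← Complex.ofReal_pow, Complex.re_mul_ofReal]
  have hSeq : S = 1 + (x * (1 - x)⁻¹ + x * S + 2 * x * (ω * G).re) := by
    have h0 : S = ‖s 0‖ ^ 2 * x ^ 0 + ∑' k : ℕ, ‖s (k + 1)‖ ^ 2 * x ^ (k + 1) :=
      hS2.tsum_eq_zero_add
    have h1 := ((hsum0.hasSum.mul_left x).add (hS2.hasSum.mul_left x)).add
      (hReG.hasSum.mul_left (2 * x))
    rw [hgeor, hReG'] at h1
    have h2 : ∑' k : ℕ, ‖s (k + 1)‖ ^ 2 * x ^ (k + 1) =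
        x * (1 - x)⁻¹ + x * S + 2 * x * (ω * G).re := by
      rw [hS, ← h1.tsum_eq]
      refine tsum_congr fun k => ?_
      rw [hnorm]
      ring
    rw [h2, hs0, pow_zero, mul_one, norm_one, one_pow] at h0
    exact h0
  -- the algebra
  have hx1' : (1 - x) ≠ 0 := by linarith
  have hab : ω.re ^ 2 + ω.im ^ 2 = 1 := by
    have := Complex.sq_norm ω
    rw [hω, Complex.normSq_apply] at this
    nlinarith [this]
  have hD : ‖1 - ω * x‖ ^ 2 = 1 - 2 * x * ω.re + x ^ 2 := by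
    rw [Complex.sq_norm, Complex.normSq_apply]
    simp only [Complex.sub_re, Complex.sub_im, Complex.one_re, Complex.one_im, Complex.mul_re,
      Complex.mul_im, Complex.ofReal_re, Complex.ofReal_im, mul_zero, sub_zero, zero_sub, add_zero,
      zero_add]
    linear_combination x ^ 2 * hab
  have hDpos : 0 < ‖1 - ω * x‖ ^ 2 := by
    have : 1 - ω * x ≠ 0 := by
      intro h0
      have h1 : ω * x = 1 := (sub_eq_zero.mp h0).symm
      have h2 : ‖ω * x‖ = 1 := by rw [h1, norm_one]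
      rw [norm_mul, hω, one_mul, Complex.norm_real] at h2
      linarith
    positivity
  have hG1 : (1 - (x : ℂ)) * ((1 - ω * x) * G) = 1 := by
    have hxc : (1 - (x : ℂ)) ≠ 0 := by
      rw [← Complex.ofReal_one, ← Complex.ofReal_sub]
      exact_mod_cast hx1'
    have h1 : (1 - ω * x) * G = 1 + (x : ℂ) * (1 - (x : ℂ))⁻¹ := by linear_combination hGeq
    rw [h1]
    field_simp
    ring
  have hE1 := congrArg Complex.re hG1
  have hE2 := congrArg Complex.im hG1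
  simp only [Complex.sub_re, Complex.sub_im, Complex.one_re, Complex.one_im, Complex.mul_re,
      Complex.mul_im, Complex.ofReal_re, Complex.ofReal_im, mul_zero, sub_zero, zero_sub, add_zero,
      zero_add, zero_mul, sub_self, neg_zero] at hE1 hE2
  have hr : (1 - x) * ‖1 - ω * x‖ ^ 2 * (ω * G).re = ω.re - x := by
    rw [hD, Complex.mul_re]
    linear_combination (ω.re * (1 - ω.re * x) - ω.im * ω.im * x) * hE1 -
      (ω.re * ω.im * x + ω.im * (1 - ω.re * x)) * hE2 -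
      (x + x ^ 2 * (1 - x) * (ω.re * G.re - ω.im * G.im)) * hab
  have hfin : S = (1 - x ^ 2) / ((1 - x) ^ 2 * ‖1 - ω * x‖ ^ 2) := by
    rw [eq_div_iff (by positivity)]
    have h2 : S * (1 - x) * (1 - x) = 1 + 2 * x * (1 - x) * (ω * G).re := by
      have : S * (1 - x) = 1 + x * (1 - x)⁻¹ + 2 * x * (ω * G).re := by linarith
      rw [this]
      field_simp
      ring
    linear_combination ‖1 - ω * x‖ ^ 2 * h2 + 2 * x * hr + hD
  rw [← hfin]
  exact hS2.hasSum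

theorem t_E3 : J_E3 := by
  intro Z h
  refine ⟨?_, ?_⟩
  · rw [GG10]
    refine (nm_euler (sm_mult Z) (sm_supp Z) (fun p => (1 - 1 / (p : ℝ))⁻¹) ?_).tsum_eq
    intro p hp hpZ
    have hp1 : (1 : ℝ) < p := by exact_mod_cast hp.one_lt
    have e : (fun k : ℕ => ‖sm Z (p ^ k)‖ ^ 2 * (1 / (p : ℝ)) ^ k) = fun k : ℕ => (1 / (p : ℝ)) ^ k := by
      funext k
      rw [sm_apply, if_pos (pp_smooth hp hpZ k)]
      simp
    rw [e]
    refine hasSum_geometric_of_lt_one (by positivity) ?_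
    rw [div_lt_one (by linarith)]
    exact hp1
  · rw [GG11, ← Finset.prod_pow, ← Finset.prod_mul_distrib]
    refine (nm_euler ((sm_mult Z).mul (sh_mult h (sm_mult Z))) (mul_supp (sm_supp Z)
      (sh_supp h (sm_supp Z))) (fun p => ((1 - 1 / (p : ℝ))⁻¹) ^ 2 * ((1 - 1 / (p : ℝ) ^ 2) /
      ‖1 - (p : ℂ) ^ (-((1 : ℂ) + (h : ℂ) * Complex.I))‖ ^ 2)) ?_).tsum_eq
    intro p hp hpZ
    have hp1 : (1 : ℝ) < p := by exact_mod_cast hp.one_lt
    have hpc : (p : ℂ) ≠ 0 := by exact_mod_cast hp.ne_zero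
    set ω : ℂ := (p : ℂ) ^ (-((h : ℂ) * Complex.I)) with hω
    have e : (fun k : ℕ => ‖(sm Z * sh h (sm Z)) (p ^ k)‖ ^ 2 * (1 / (p : ℝ)) ^ k) =
        fun k : ℕ => ‖∑ i ∈ Finset.range (k + 1), ω ^ i‖ ^ 2 * (1 / (p : ℝ)) ^ k := by
      funext k
      rw [mul_pp _ _ hp, ← Finset.sum_range_reflect]
      congr 3
      refine Finset.sum_congr rfl fun i hi => ?_
      rw [sh_apply, sm_apply, sm_apply, if_pos (pp_smooth hp hpZ _), if_pos (pp_smooth hp hpZ _),
        om_pow, ← hω, one_mul, one_mul]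
      congr 1
      have := Finset.mem_range.mp hi
      omega
    rw [e]
    have hx1 : 1 / (p : ℝ) < 1 := by rw [div_lt_one (by linarith)]; exact hp1
    have hl := local_sum (om_norm hp.pos h) (show 0 ≤ 1 / (p : ℝ) by positivity) hx1
    rw [← hω] at hl
    have e2 : (p : ℂ) ^ (-((1 : ℂ) + (h : ℂ) * Complex.I)) = ω * ((1 / (p : ℝ) : ℝ) : ℂ) := by
      rw [hω, show -((1 : ℂ) + (h : ℂ) * Complex.I) = -((h : ℂ) * Complex.I) + (-1) by ring,
        Complex.cpow_add _ _ hpc, Complex.cpow_neg_one]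
      push_cast
      ring
    rw [e2]
    have e3 : (1 - (1 / (p : ℝ)) ^ 2) / ((1 - 1 / (p : ℝ)) ^ 2 * ‖1 - ω * ((1 / (p : ℝ) : ℝ) : ℂ)‖ ^ 2) =
        ((1 - 1 / (p : ℝ))⁻¹) ^ 2 * ((1 - 1 / (p : ℝ) ^ 2) / ‖1 - ω * ((1 / (p : ℝ) : ℝ) : ℂ)‖ ^ 2) := by
      rw [inv_pow, one_div_pow]
      rw [← one_div, div_mul_div_comm, one_mul]
    rw [← e3]
    exact hl

end

end Pool.Agent.Q153.EW
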