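import Pool.Agent.Q80.EW.Stm

set_option autoImplicit false

/-! Project EW (helper80), job MULT (helper153). -/

namespace Pool.Agent.Q153.EW

open Filter Topology MeasureTheory
open Pool.Agent.Q80.EW

noncomputable section

/-- the squares of the norms as an arithmetic function -/
def sq (f : ArithmeticFunction ℂ) : ArithmeticFunction ℂ :=
  ⟨fun n => ((‖f n‖ ^ 2 : ℝ) : ℂ), by simp⟩

theorem sq_apply (f : ArithmeticFunction ℂ) (n : ℕ) : sq f n = ((‖f n‖ ^ 2 : ℝ) : ℂ) := rfl

theorem nm_ls (f : ArithmeticFunction ℂ) : ((nm f : ℝ) : ℂ) = LSeries (fun n => sq f n) 1 := by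
  unfold nm LSeries
  rw [Complex.ofReal_tsum]
  refine tsum_congr fun n => ?_
  rcases eq_or_ne n 0 with rfl | hn
  · simp
  · rw [LSeries.term_of_ne_zero hn, Complex.cpow_one, sq_apply]
    push_cast
    ring

theorem ls_summable {X : ℕ} {f : ArithmeticFunction ℂ} (hf : FS X f) :
    LSeriesSummable (fun n => sq f n) 1 := by
  unfold LSeriesSummable
  refine summable_of_ne_finset_zero (s := Finset.range (X + 1)) fun n hn => ?_
  rw [Finset.mem_range, not_lt] at hn
  have h0 : f n = 0 := hf n hn
  rcases eq_or_ne n 0 with rfl | hn0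
  · simp
  · rw [LSeries.term_of_ne_zero hn0, sq_apply, h0]
    simp

theorem t_MULT : J_MULT := by
  intro Z X Y f g hfX hgY hfs hgr
  -- uniqueness of the decomposition
  have huniq : ∀ a b a' b' : ℕ, a * b = a' * b' → f a ≠ 0 → g b ≠ 0 → f a' ≠ 0 → g b' ≠ 0 →
      a = a' := by
    have hdvd : ∀ a b a' b' : ℕ, a * b = a' * b' → f a ≠ 0 → g b' ≠ 0 → a ∣ a' := by
      intro a b a' b' he ha hb'
      have hco : Nat.Coprime a b' := by
        rw [Nat.coprime_iff_gcd_eq_one]
        by_contra hne
        obtain ⟨p, hp, hpd⟩ := Nat.exists_prime_and_dvd hne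
        have h1 := Nat.mem_smoothNumbers'.mp (hfs a ha) p hp (hpd.trans (Nat.gcd_dvd_left _ _))
        have h2 := hgr b' hb' p hp (hpd.trans (Nat.gcd_dvd_right _ _))
        omega
      exact hco.dvd_of_dvd_mul_right (he ▸ Dvd.intro b rfl)
    intro a b a' b' he ha hb ha' hb'
    exact Nat.dvd_antisymm (hdvd a b a' b' he ha hb') (hdvd a' b' a b he.symm ha' hb)
  -- the squares
  have hsq : (fun n => sq (f * g) n) = fun n => (sq f * sq g) n := by
    funext n
    rw [sq_apply, ArithmeticFunction.mul_apply, ArithmeticFunction.mul_apply]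
    by_cases hex : ∃ x ∈ n.divisorsAntidiagonal, f x.1 ≠ 0 ∧ g x.2 ≠ 0
    · obtain ⟨x, hx, hx1, hx2⟩ := hex
      have hz : ∀ y ∈ n.divisorsAntidiagonal, y ≠ x → f y.1 = 0 ∨ g y.2 = 0 := by
        intro y hy hyx
        by_contra hc
        push Not at hc
        apply hyx
        rw [Nat.mem_divisorsAntidiagonal] at hx hy
        have he : y.1 * y.2 = x.1 * x.2 := hy.1.trans hx.1.symm
        have h1 := huniq _ _ _ _ he hc.1 hc.2 hx1 hx2
        have hx0 : 0 < x.1 := Nat.pos_of_ne_zero fun h0 => hx.2 (by rw [← hx.1, h0, zero_mul])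
        have h2 : y.2 = x.2 := by
          rw [h1] at he
          exact Nat.eq_of_mul_eq_mul_left hx0 he
        exact Prod.ext h1 h2
      rw [Finset.sum_eq_single_of_mem x hx, Finset.sum_eq_single_of_mem x hx, sq_apply, sq_apply,
        norm_mul]
      · push_cast
        ring
      · intro y hy hyx
        rw [sq_apply, sq_apply]
        rcases hz y hy hyx with h | h <;> rw [h] <;> simp
      · intro y hy hyx
        rcases hz y hy hyx with h | h <;> rw [h] <;> simp
    · push Not at hex
      rw [Finset.sum_eq_zero, Finset.sum_eq_zero]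
      · simp
      · intro y hy
        rw [sq_apply, sq_apply]
        by_cases h : f y.1 = 0
        · rw [h]; simp
        · rw [hex y hy h]; simp
      · intro y hy
        by_cases h : f y.1 = 0
        · rw [h]; simp
        · rw [hex y hy h]; simp
  have hmul := ArithmeticFunction.LSeries_mul' (ls_summable hfX) (ls_summable hgY)
  have key : ((nm (f * g) : ℝ) : ℂ) = ((nm f * nm g : ℝ) : ℂ) := by
    rw [nm_ls, hsq]
    push_cast
    rw [nm_ls f, nm_ls g]
    exact hmul
  exact_mod_cast key

end

end Pool.Agent.Q153.EW
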