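import Pool.Agent.Q153.EW.Base

set_option autoImplicit false

/-! Project EW (helper80), job TAIL (helper153). -/

namespace Pool.Agent.Q153.EW

open Filter Topology MeasureTheory
open Pool.Agent.Q80.EW

noncomputable section

/-- the norms as an arithmetic function -/
def nr (f : ArithmeticFunction ℂ) : ArithmeticFunction ℝ := ⟨fun n => ‖f n‖, by simp⟩

theorem nr_apply (f : ArithmeticFunction ℂ) (n : ℕ) : nr f n = ‖f n‖ := rfl

theorem nr_mult {f : ArithmeticFunction ℂ} (hf : f.IsMultiplicative) : (nr f).IsMultiplicative := by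
  refine ⟨?_, fun {m n} hmn => ?_⟩
  · rw [nr_apply, hf.1, norm_one]
  · rw [nr_apply, nr_apply, nr_apply, hf.2 hmn, norm_mul]

theorem mul_ppR (f g : ArithmeticFunction ℝ) {p : ℕ} (hp : p.Prime) (k : ℕ) :
    (f * g) (p ^ k) = ∑ i ∈ Finset.range (k + 1), f (p ^ i) * g (p ^ (k - i)) := by
  rw [ArithmeticFunction.mul_apply,
    Nat.sum_divisorsAntidiagonal (f := fun a b => f a * g b), Nat.sum_divisors_prime_pow hp]
  refine Finset.sum_congr rfl fun i hi => ?_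
  rw [Nat.pow_div (by have := Finset.mem_range.mp hi; omega) hp.pos]

/-- domination -/
def Dom (f : ArithmeticFunction ℂ) (F : ArithmeticFunction ℝ) : Prop := ∀ n, ‖f n‖ ≤ F n

theorem Dom.mul {f f' : ArithmeticFunction ℂ} {F F' : ArithmeticFunction ℝ} (h : Dom f F)
    (h' : Dom f' F') : Dom (f * f') (F * F') := by
  intro n
  rw [ArithmeticFunction.mul_apply, ArithmeticFunction.mul_apply]
  refine (norm_sum_le _ _).trans (Finset.sum_le_sum fun x _ => ?_)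
  rw [norm_mul]
  exact mul_le_mul (h _) (h' _) (norm_nonneg _) ((norm_nonneg _).trans (h _))

theorem dom_self (f : ArithmeticFunction ℂ) : Dom f (nr f) := fun _ => le_rfl

theorem dom_sh {h : ℝ} {f : ArithmeticFunction ℂ} {F : ArithmeticFunction ℝ} (hf : Dom f F) :
    Dom (sh h f) F := by
  intro n
  refine le_trans ?_ (hf n)
  rw [sh_apply]
  rcases Nat.eq_zero_or_pos n with rfl | hn
  · simp
  · rw [norm_mul, om_norm' hn, mul_one]
where
  om_norm' {p : ℕ} (hp : 0 < p) : ‖(p : ℂ) ^ (-((h : ℂ) * Complex.I))‖ = 1 := by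
    rw [Complex.norm_natCast_cpow_of_pos hp]
    simp

theorem dom_tr {l : ℕ} {f : ArithmeticFunction ℂ} {F : ArithmeticFunction ℝ} (hf : Dom f F) :
    Dom (tr l f) F := by
  intro n
  change ‖(if ArithmeticFunction.cardFactors n ≤ l then f n else 0 : ℂ)‖ ≤ F n
  split_ifs
  · exact hf n
  · rw [norm_zero]
    exact (norm_nonneg _).trans (hf n)

theorem dom_one (Z : ℕ) : Dom 1 (nr (sm Z)) := by
  intro n
  rcases eq_or_ne n 1 with rfl | hn
  · rw [nr_apply, (sm_mult Z).1, ArithmeticFunction.one_one]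
  · rw [ArithmeticFunction.one_apply_ne hn, norm_zero, nr_apply]
    exact norm_nonneg _

theorem dom_pow {Z s : ℕ} (hs : s ≤ 1) {f : ArithmeticFunction ℂ} (hf : Dom f (nr (sm Z))) :
    Dom (f ^ s) (nr (sm Z)) := by
  interval_cases s
  · rw [pow_zero]; exact dom_one Z
  · rw [pow_one]; exact hf

/-- equality up to the level l -/
def Eql (l : ℕ) (f f' : ArithmeticFunction ℂ) : Prop :=
  ∀ n, ArithmeticFunction.cardFactors n ≤ l → f n = f' n

theorem Eql.mul {l : ℕ} {f f' g g' : ArithmeticFunction ℂ} (h : Eql l f f') (h' : Eql l g g') :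
    Eql l (f * g) (f' * g') := by
  intro n hn
  rw [ArithmeticFunction.mul_apply, ArithmeticFunction.mul_apply]
  refine Finset.sum_congr rfl fun x hx => ?_
  rw [Nat.mem_divisorsAntidiagonal] at hx
  have hx1 : x.1 ≠ 0 := left_ne_zero_of_mul (hx.1 ▸ hx.2)
  have hx2 : x.2 ≠ 0 := right_ne_zero_of_mul (hx.1 ▸ hx.2)
  have e := ArithmeticFunction.cardFactors_mul hx1 hx2
  rw [hx.1] at e
  rw [h _ (by omega), h' _ (by omega)]

theorem eql_refl (l : ℕ) (f : ArithmeticFunction ℂ) : Eql l f f := fun _ _ => rfl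

theorem eql_tr (l : ℕ) (f : ArithmeticFunction ℂ) : Eql l (tr l f) f := by
  intro n hn
  change (if ArithmeticFunction.cardFactors n ≤ l then f n else 0 : ℂ) = f n
  rw [if_pos hn]

theorem eql_sh {l : ℕ} {f f' : ArithmeticFunction ℂ} (h : ℝ) (hf : Eql l f f') :
    Eql l (sh h f) (sh h f') := by
  intro n hn
  rw [sh_apply, sh_apply, hf n hn]

theorem eql_pow {l s : ℕ} (hs : s ≤ 1) {f f' : ArithmeticFunction ℂ} (hf : Eql l f f') :
    Eql l (f ^ s) (f' ^ s) := by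
  interval_cases s
  · rw [pow_zero, pow_zero]; exact eql_refl l 1
  · rw [pow_one, pow_one]; exact hf

theorem eql_GT {l s0 s1 : ℕ} (hs0 : s0 ≤ 1) (hs1 : s1 ≤ 1) (Z : ℕ) (h : ℝ) (v v' : ℕ → ℝ) :
    Eql l (GT l s0 s1 Z h v v') (GG s0 s1 Z h v v') :=
  (((eql_pow hs0 (eql_tr l _)).mul (eql_pow hs1 (eql_sh h (eql_tr l _)))).mul (eql_tr l _)).mul
    (eql_sh h (eql_tr l _))

/-- the majorant -/
def gg (Z : ℕ) (v v' : ℕ → ℝ) : ArithmeticFunction ℝ :=
  nr (sm Z) * nr (sm Z) * nr (ex v) * nr (ex v')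

theorem dom_GT {l s0 s1 : ℕ} (hs0 : s0 ≤ 1) (hs1 : s1 ≤ 1) (Z : ℕ) (h : ℝ) (v v' : ℕ → ℝ) :
    Dom (GT l s0 s1 Z h v v') (gg Z v v') :=
  (((dom_pow hs0 (dom_tr (dom_self _))).mul (dom_pow hs1 (dom_sh (dom_tr (dom_self _))))).mul
    (dom_tr (dom_self _))).mul (dom_sh (dom_tr (dom_self _)))

theorem dom_GG {s0 s1 : ℕ} (hs0 : s0 ≤ 1) (hs1 : s1 ≤ 1) (Z : ℕ) (h : ℝ) (v v' : ℕ → ℝ) :
    Dom (GG s0 s1 Z h v v') (gg Z v v') :=
  (((dom_pow hs0 (dom_self _)).mul (dom_pow hs1 (dom_sh (dom_self _)))).mul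
    (dom_self _)).mul (dom_sh (dom_self _))

theorem gg_mult (Z : ℕ) (v v' : ℕ → ℝ) : (gg Z v v').IsMultiplicative :=
  (((nr_mult (sm_mult Z)).mul (nr_mult (sm_mult Z))).mul (nr_mult (ex_mult v))).mul
    (nr_mult (ex_mult v'))

theorem gg_nonneg (Z : ℕ) (v v' : ℕ → ℝ) (n : ℕ) : 0 ≤ gg Z v v' n :=
  (norm_nonneg _).trans (dom_GG (s0 := 1) (s1 := 1) le_rfl le_rfl Z 0 v v' n)

/-- the exponential sum bound -/
theorem ex_sum_le {v : ℕ → ℝ} {p : ℕ} (hp : p.Prime) (hv : |v p| ≤ 2) (k : ℕ) :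
    ∑ i ∈ Finset.range (k + 1), ‖ex v (p ^ (k - i))‖ ≤ Real.exp 2 := by
  rw [← Finset.sum_range_reflect]
  have e : ∀ i ∈ Finset.range (k + 1), ‖ex v (p ^ (k - (k + 1 - 1 - i)))‖ = |v p| ^ i / (i.factorial : ℝ) := by
    intro i hi
    have : k - (k + 1 - 1 - i) = i := by
      have := Finset.mem_range.mp hi
      omega
    rw [this, ex_pp v hp, Complex.norm_real, Real.norm_eq_abs, abs_div, abs_pow, Nat.abs_cast]
  rw [Finset.sum_congr rfl e]
  refine (Real.sum_le_exp_of_nonneg (abs_nonneg _) _).trans ?_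
  exact Real.exp_le_exp.mpr hv

theorem aa_pp {Z p : ℕ} (hp : p.Prime) (hpZ : p < Z) (i : ℕ) :
    (nr (sm Z) * nr (sm Z)) (p ^ i) = (i : ℝ) + 1 := by
  rw [mul_ppR _ _ hp]
  have : ∀ j ∈ Finset.range (i + 1), nr (sm Z) (p ^ j) * nr (sm Z) (p ^ (i - j)) = 1 := by
    intro j _
    rw [nr_apply, nr_apply, sm_apply, sm_apply, if_pos (pp_smooth hp hpZ _),
      if_pos (pp_smooth hp hpZ _)]
    simp
  rw [Finset.sum_congr rfl this]
  simp

theorem gg_pp {Z p : ℕ} {v v' : ℕ → ℝ} (hp : p.Prime) (hpZ : p < Z) (hv : |v p| ≤ 2)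
    (hv' : |v' p| ≤ 2) (k : ℕ) : gg Z v v' (p ^ k) ≤ ((k : ℝ) + 1) * Real.exp 4 := by
  unfold gg
  rw [mul_ppR _ _ hp]
  have h1 : ∀ i ∈ Finset.range (k + 1),
      (nr (sm Z) * nr (sm Z) * nr (ex v)) (p ^ i) ≤ ((k : ℝ) + 1) * Real.exp 2 := by
    intro i hi
    have hik : (i : ℝ) ≤ k := by
      have := Finset.mem_range.mp hi
      exact_mod_cast (by omega : i ≤ k)
    rw [mul_ppR _ _ hp]
    calc ∑ j ∈ Finset.range (i + 1), (nr (sm Z) * nr (sm Z)) (p ^ j) * nr (ex v) (p ^ (i - j))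
        ≤ ∑ j ∈ Finset.range (i + 1), ((k : ℝ) + 1) * ‖ex v (p ^ (i - j))‖ := by
          refine Finset.sum_le_sum fun j hj => ?_
          rw [aa_pp hp hpZ, nr_apply]
          refine mul_le_mul_of_nonneg_right ?_ (norm_nonneg _)
          have : (j : ℝ) ≤ i := by
            have := Finset.mem_range.mp hj
            exact_mod_cast (by omega : j ≤ i)
          linarith
      _ = ((k : ℝ) + 1) * ∑ j ∈ Finset.range (i + 1), ‖ex v (p ^ (i - j))‖ := by
          rw [Finset.mul_sum]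
      _ ≤ ((k : ℝ) + 1) * Real.exp 2 :=
          mul_le_mul_of_nonneg_left (ex_sum_le hp hv i) (by positivity)
  calc ∑ i ∈ Finset.range (k + 1), (nr (sm Z) * nr (sm Z) * nr (ex v)) (p ^ i) *
        nr (ex v') (p ^ (k - i))
      ≤ ∑ i ∈ Finset.range (k + 1), (((k : ℝ) + 1) * Real.exp 2) * ‖ex v' (p ^ (k - i))‖ := by
        refine Finset.sum_le_sum fun i hi => ?_
        rw [nr_apply]
        exact mul_le_mul_of_nonneg_right (h1 i hi) (norm_nonneg _)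
    _ = (((k : ℝ) + 1) * Real.exp 2) * ∑ i ∈ Finset.range (k + 1), ‖ex v' (p ^ (k - i))‖ := by
        rw [Finset.mul_sum]
    _ ≤ (((k : ℝ) + 1) * Real.exp 2) * Real.exp 2 :=
        mul_le_mul_of_nonneg_left (ex_sum_le hp hv' k) (by positivity)
    _ = ((k : ℝ) + 1) * Real.exp 4 := by
        rw [mul_assoc, ← Real.exp_add]
        norm_num

theorem gg_p {Z p : ℕ} {v v' : ℕ → ℝ} (hp : p.Prime) (hpZ : p < Z) (hv : |v p| ≤ 2)
    (hv' : |v' p| ≤ 2) : gg Z v v' p ≤ 6 := by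
  have e1 : ∀ w : ℕ → ℝ, nr (ex w) p = |w p| := by
    intro w
    have := ex_pp w hp 1
    rw [pow_one] at this
    rw [nr_apply, this, Complex.norm_real, Real.norm_eq_abs]
    simp
  have e0 : ∀ w : ℕ → ℝ, nr (ex w) 1 = 1 := fun w => (nr_mult (ex_mult w)).1
  have a0 : (nr (sm Z) * nr (sm Z)) 1 = 1 :=
    ((nr_mult (sm_mult Z)).mul (nr_mult (sm_mult Z))).1
  have a1 : (nr (sm Z) * nr (sm Z)) p = 2 := by
    have := aa_pp hp hpZ 1
    rw [pow_one] at this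
    rw [this]
    norm_num
  have step : ∀ f g : ArithmeticFunction ℝ, (f * g) p = f 1 * g p + f p * g 1 := by
    intro f g
    have := mul_ppR f g hp 1
    rw [pow_one] at this
    rw [this, Finset.sum_range_succ, Finset.sum_range_one]
    simp
  have b0 : (nr (sm Z) * nr (sm Z) * nr (ex v)) 1 = 1 :=
    (((nr_mult (sm_mult Z)).mul (nr_mult (sm_mult Z))).mul (nr_mult (ex_mult v))).1
  unfold gg
  rw [step (nr (sm Z) * nr (sm Z) * nr (ex v)), step (nr (sm Z) * nr (sm Z)), b0, a0, a1, e1, e1,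
    e0, e0]
  linarith

/-- the weighted majorant -/
def FF (Z : ℕ) (v v' : ℕ → ℝ) (n : ℕ) : ℝ :=
  gg Z v v' n ^ 2 * (7 / 5 : ℝ) ^ (ArithmeticFunction.cardFactors n) / (n : ℝ)

/-- the constant in the local factors -/
def KK : ℝ := 4 * Real.exp 8 * ∑' k : ℕ, ((k : ℝ) + 1) ^ 2 * (7 / 10 : ℝ) ^ k

theorem sumK : Summable fun k : ℕ => ((k : ℝ) + 1) ^ 2 * (7 / 10 : ℝ) ^ k := by
  have hn : ‖(7 / 10 : ℝ)‖ < 1 := by norm_num
  have h0 : Summable fun k : ℕ => (7 / 10 : ℝ) ^ k :=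
    summable_geometric_of_lt_one (by norm_num) (by norm_num)
  have h1 : Summable fun k : ℕ => (k : ℝ) ^ 1 * (7 / 10 : ℝ) ^ k :=
    summable_pow_mul_geometric_of_norm_lt_one 1 hn
  have h2 : Summable fun k : ℕ => (k : ℝ) ^ 2 * (7 / 10 : ℝ) ^ k :=
    summable_pow_mul_geometric_of_norm_lt_one 2 hn
  refine ((h2.add (h1.mul_left 2)).add h0).congr fun k => ?_
  ring

theorem local_FF {Z p : ℕ} {v v' : ℕ → ℝ} (hp : p.Prime) (hpZ : p < Z) (hv : |v p| ≤ 2)
    (hv' : |v' p| ≤ 2) : Summable (fun k : ℕ => FF Z v v' (p ^ k)) ∧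
    ∑' k : ℕ, FF Z v v' (p ^ k) ≤ Real.exp (51 * (1 / (p : ℝ)) + KK * (1 / (p : ℝ) ^ 2)) := by
  have hp2 : (2 : ℝ) ≤ p := by exact_mod_cast hp.two_le
  have hp0 : (0 : ℝ) < p := by linarith
  have e8 : Real.exp 4 ^ 2 = Real.exp 8 := by
    rw [← Real.exp_nat_mul]
    norm_num
  have hval : ∀ k : ℕ, FF Z v v' (p ^ k) = gg Z v v' (p ^ k) ^ 2 * (7 / (5 * (p : ℝ))) ^ k := by
    intro k
    unfold FF
    rw [ArithmeticFunction.cardFactors_apply_prime_pow hp]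
    push_cast
    rw [div_pow, div_pow, mul_pow]
    field_simp
  have hb : ∀ k : ℕ, gg Z v v' (p ^ k) ^ 2 ≤ ((k : ℝ) + 1) ^ 2 * Real.exp 8 := by
    intro k
    have h1 := gg_pp hp hpZ hv hv' k
    have h2 := pow_le_pow_left₀ (gg_nonneg Z v v' _) h1 2
    rwa [mul_pow, e8] at h2
  have hq : 7 / (5 * (p : ℝ)) ≤ 7 / 10 := by
    rw [div_le_div_iff₀ (by positivity) (by norm_num)]
    linarith
  have hq0 : 0 ≤ 7 / (5 * (p : ℝ)) := by positivity
  have hS : Summable (fun k : ℕ => FF Z v v' (p ^ k)) := by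
    refine Summable.of_nonneg_of_le (fun k => ?_) (fun k => ?_) (sumK.mul_left (Real.exp 8))
    · rw [hval]; positivity
    · rw [hval]
      calc gg Z v v' (p ^ k) ^ 2 * (7 / (5 * (p : ℝ))) ^ k
          ≤ (((k : ℝ) + 1) ^ 2 * Real.exp 8) * (7 / 10) ^ k :=
            mul_le_mul (hb k) (pow_le_pow_left₀ hq0 hq k) (by positivity) (by positivity)
        _ = Real.exp 8 * (((k : ℝ) + 1) ^ 2 * (7 / 10) ^ k) := by ring
  refine ⟨hS, ?_⟩
  have hS1 := (summable_nat_add_iff 1).mpr hS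
  rw [hS.tsum_eq_zero_add, hS1.tsum_eq_zero_add]
  have t0 : FF Z v v' (p ^ 0) = 1 := by
    rw [hval, pow_zero, pow_zero, (gg_mult Z v v').1]
    norm_num
  have t1 : FF Z v v' (p ^ (0 + 1)) ≤ 51 * (1 / (p : ℝ)) := by
    rw [hval, zero_add, pow_one, pow_one]
    have h1 := pow_le_pow_left₀ (gg_nonneg Z v v' p) (gg_p hp hpZ hv hv') 2
    calc gg Z v v' p ^ 2 * (7 / (5 * (p : ℝ))) ≤ 6 ^ 2 * (7 / (5 * (p : ℝ))) :=
          mul_le_mul_of_nonneg_right h1 hq0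
      _ = (252 / 5) * (1 / (p : ℝ)) := by
          field_simp
          norm_num
      _ ≤ 51 * (1 / (p : ℝ)) := mul_le_mul_of_nonneg_right (by norm_num) (by positivity)
  have t2 : ∑' k : ℕ, FF Z v v' (p ^ (k + 1 + 1)) ≤ KK * (1 / (p : ℝ) ^ 2) := by
    have hsum2 : Summable fun k : ℕ => (((k + 2 : ℕ) : ℝ) + 1) ^ 2 * (7 / 10 : ℝ) ^ (k + 2) :=
      (summable_nat_add_iff (f := fun k : ℕ => ((k : ℝ) + 1) ^ 2 * (7 / 10 : ℝ) ^ k) 2).mpr sumK
    have hle : ∀ k : ℕ, FF Z v v' (p ^ (k + 1 + 1)) ≤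
        (4 * Real.exp 8 * (1 / (p : ℝ) ^ 2)) *
          ((((k + 2 : ℕ) : ℝ) + 1) ^ 2 * (7 / 10 : ℝ) ^ (k + 2)) := by
      intro k
      rw [hval, show k + 1 + 1 = k + 2 by ring]
      have h1 : (7 / (5 * (p : ℝ))) ^ (k + 2) ≤ (7 / 10 : ℝ) ^ (k + 2) * (4 * (1 / (p : ℝ) ^ 2)) := by
        have e : 7 / (5 * (p : ℝ)) = (7 / 10) * (2 / (p : ℝ)) := by
          field_simp
          norm_num
        rw [e, mul_pow]
        refine mul_le_mul_of_nonneg_left ?_ (by positivity)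
        have h2 : 2 / (p : ℝ) ≤ 1 := by rw [div_le_one hp0]; exact hp2
        calc (2 / (p : ℝ)) ^ (k + 2) = (2 / (p : ℝ)) ^ k * (2 / (p : ℝ)) ^ 2 := pow_add _ _ _
          _ ≤ 1 * (2 / (p : ℝ)) ^ 2 :=
              mul_le_mul_of_nonneg_right (pow_le_one₀ (by positivity) h2) (by positivity)
          _ = 4 * (1 / (p : ℝ) ^ 2) := by
              rw [one_mul, div_pow]
              ring
      calc gg Z v v' (p ^ (k + 2)) ^ 2 * (7 / (5 * (p : ℝ))) ^ (k + 2)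
          ≤ ((((k + 2 : ℕ) : ℝ) + 1) ^ 2 * Real.exp 8) *
            ((7 / 10 : ℝ) ^ (k + 2) * (4 * (1 / (p : ℝ) ^ 2))) :=
            mul_le_mul (hb (k + 2)) h1 (by positivity) (by positivity)
        _ = _ := by ring
    have hst : Summable fun k : ℕ => FF Z v v' (p ^ (k + 1 + 1)) := (summable_nat_add_iff 1).mpr hS1
    refine (hst.tsum_le_tsum hle (hsum2.mul_left _)).trans ?_
    rw [tsum_mul_left]
    have h3 : ∑' k : ℕ, (((k + 2 : ℕ) : ℝ) + 1) ^ 2 * (7 / 10 : ℝ) ^ (k + 2) ≤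
        ∑' k : ℕ, ((k : ℝ) + 1) ^ 2 * (7 / 10 : ℝ) ^ k := by
      rw [← sumK.sum_add_tsum_nat_add 2]
      refine le_add_of_nonneg_left ?_
      exact Finset.sum_nonneg fun i _ => by positivity
    calc (4 * Real.exp 8 * (1 / (p : ℝ) ^ 2)) *
          ∑' k : ℕ, (((k + 2 : ℕ) : ℝ) + 1) ^ 2 * (7 / 10 : ℝ) ^ (k + 2)
        ≤ (4 * Real.exp 8 * (1 / (p : ℝ) ^ 2)) * ∑' k : ℕ, ((k : ℝ) + 1) ^ 2 * (7 / 10 : ℝ) ^ k :=
          mul_le_mul_of_nonneg_left h3 (by positivity)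
      _ = KK * (1 / (p : ℝ) ^ 2) := by
          unfold KK
          ring
  have hexp := Real.add_one_le_exp (51 * (1 / (p : ℝ)) + KK * (1 / (p : ℝ) ^ 2))
  linarith

theorem FF_nonneg (Z : ℕ) (v v' : ℕ → ℝ) (n : ℕ) : 0 ≤ FF Z v v' n := by
  unfold FF
  have := gg_nonneg Z v v' n
  positivity

theorem gg_supp {Z : ℕ} {v v' : ℕ → ℝ} (hv : Wt Z v) (hv' : Wt Z v') :
    ∀ n, gg Z v v' n ≠ 0 → n ∈ Nat.smoothNumbers Z := by
  have hex : ∀ w : ℕ → ℝ, Wt Z w → ∀ n, nr (ex w) n ≠ 0 → n ∈ Nat.smoothNumbers Z := by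
    intro w hw n hn
    rw [nr_apply] at hn
    have hn0 : n ≠ 0 := by rintro rfl; simp at hn
    rw [Nat.mem_smoothNumbers']
    intro p hp hpd
    by_contra hpZ
    push Not at hpZ
    apply hn
    rw [ex_apply w hn0]
    have hmem : p ∈ n.factorization.support := by
      rw [Nat.support_factorization, Nat.mem_primeFactors]
      exact ⟨hp, hpd, hn0⟩
    have h0 : (n.factorization.prod fun p a => w p ^ a / (a.factorial : ℝ)) = 0 := by
      refine Finset.prod_eq_zero hmem ?_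
      have : n.factorization p ≠ 0 := Finsupp.mem_support_iff.mp hmem
      have e : w p = 0 := (hw p).2 hpZ
      simp [this, e]
    rw [h0]
    simp
  have hmul : ∀ f g : ArithmeticFunction ℝ, (∀ n, f n ≠ 0 → n ∈ Nat.smoothNumbers Z) →
      (∀ n, g n ≠ 0 → n ∈ Nat.smoothNumbers Z) → ∀ n, (f * g) n ≠ 0 → n ∈ Nat.smoothNumbers Z := by
    intro f g hf hg n hn
    rw [ArithmeticFunction.mul_apply] at hn
    obtain ⟨x, hx, hx0⟩ := Finset.exists_ne_zero_of_sum_ne_zero hn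
    rw [Nat.mem_divisorsAntidiagonal] at hx
    rw [← hx.1, smooth_mul_iff]
    exact ⟨hf _ (left_ne_zero_of_mul hx0), hg _ (right_ne_zero_of_mul hx0)⟩
  have hsm : ∀ n, nr (sm Z) n ≠ 0 → n ∈ Nat.smoothNumbers Z := by
    intro n hn
    refine sm_supp Z n fun h0 => hn ?_
    rw [nr_apply, h0, norm_zero]
  exact hmul _ _ (hmul _ _ (hmul _ _ hsm hsm) (hex v hv)) (hex v' hv')

theorem sum_FF {Z : ℕ} {v v' : ℕ → ℝ} (hv : Wt Z v) (hv' : Wt Z v') :
    Summable (FF Z v v') ∧ ∑' n, FF Z v v' n ≤ Real.exp (KK * ∑' n : ℕ, 1 / (n : ℝ) ^ 2) *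
      Real.exp (51 * ∑ p ∈ Nat.primesBelow Z, (1 : ℝ) / (p : ℝ)) := by
  have h := euler (Z := Z) (F := FF Z v v') (by
      unfold FF
      rw [(gg_mult Z v v').1]
      simp) (by
      intro m n hmn
      rcases eq_or_ne m 0 with rfl | hm
      · unfold FF; simp
      rcases eq_or_ne n 0 with rfl | hn
      · unfold FF; simp
      unfold FF
      rw [(gg_mult Z v v').2 hmn, ArithmeticFunction.cardFactors_mul hm hn, pow_add]
      push_cast
      rw [div_mul_div_comm]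
      ring) (FF_nonneg Z v v')
    (fun p hp hpZ => (local_FF hp hpZ (hv p).1 (hv' p).1).1) (by
      intro n hn
      refine gg_supp hv hv' n fun h0 => hn ?_
      unfold FF
      rw [h0]
      simp)
  refine ⟨h.summable, ?_⟩
  rw [h.tsum_eq]
  have hKK : 0 ≤ KK := by
    unfold KK
    have : 0 ≤ ∑' k : ℕ, ((k : ℝ) + 1) ^ 2 * (7 / 10 : ℝ) ^ k := tsum_nonneg fun k => by positivity
    positivity
  calc ∏ p ∈ Z.primesBelow, ∑' k : ℕ, FF Z v v' (p ^ k)
      ≤ ∏ p ∈ Z.primesBelow, Real.exp (51 * (1 / (p : ℝ)) + KK * (1 / (p : ℝ) ^ 2)) := by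
        refine Finset.prod_le_prod (fun p _ => tsum_nonneg fun k => FF_nonneg Z v v' _) ?_
        intro p hp
        exact (local_FF (Nat.prime_of_mem_primesBelow hp) (Nat.lt_of_mem_primesBelow hp)
          (hv p).1 (hv' p).1).2
    _ = Real.exp (51 * ∑ p ∈ Nat.primesBelow Z, (1 : ℝ) / (p : ℝ) +
          KK * ∑ p ∈ Nat.primesBelow Z, (1 : ℝ) / (p : ℝ) ^ 2) := by
        rw [← Real.exp_sum, Finset.sum_add_distrib, ← Finset.mul_sum, ← Finset.mul_sum]
    _ ≤ Real.exp (KK * ∑' n : ℕ, 1 / (n : ℝ) ^ 2 +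
          51 * ∑ p ∈ Nat.primesBelow Z, (1 : ℝ) / (p : ℝ)) := by
        rw [Real.exp_le_exp]
        have h2 : ∑ p ∈ Nat.primesBelow Z, (1 : ℝ) / (p : ℝ) ^ 2 ≤ ∑' n : ℕ, 1 / (n : ℝ) ^ 2 :=
          (Real.summable_one_div_nat_pow.mpr (by norm_num)).sum_le_tsum _
            (fun n _ => by positivity)
        have := mul_le_mul_of_nonneg_left h2 hKK
        linarith
    _ = _ := Real.exp_add _ _

theorem t_TAIL : J_TAIL := by
  refine ⟨Real.exp (KK * ∑' n : ℕ, 1 / (n : ℝ) ^ 2), Real.exp_pos _, ?_⟩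
  intro l s0 s1 Z h v v' hs0 hs1 hv hv'
  obtain ⟨hS, hle⟩ := sum_FF hv hv'
  have hgF : ∀ n, gg Z v v' n ^ 2 / (n : ℝ) ≤ FF Z v v' n := by
    intro n
    unfold FF
    refine div_le_div_of_nonneg_right ?_ (Nat.cast_nonneg n)
    exact le_mul_of_one_le_right (sq_nonneg _) (one_le_pow₀ (by norm_num))
  have hsumm : ∀ f : ArithmeticFunction ℂ, Dom f (gg Z v v') →
      Summable fun n : ℕ => ‖f n‖ ^ 2 / (n : ℝ) := by
    intro f hf
    refine Summable.of_nonneg_of_le (fun n => by positivity) (fun n => ?_) hS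
    refine le_trans ?_ (hgF n)
    exact div_le_div_of_nonneg_right (pow_le_pow_left₀ (norm_nonneg _) (hf n) 2)
      (Nat.cast_nonneg n)
  have d1 := dom_GT (l := l) hs0 hs1 Z h v v'
  have d2 := dom_GG hs0 hs1 Z h v v'
  have s1' := hsumm _ d1
  have s2' := hsumm _ d2
  unfold nm
  rw [← s1'.tsum_sub s2']
  have hterm : ∀ n : ℕ, ‖‖GT l s0 s1 Z h v v' n‖ ^ 2 / (n : ℝ) - ‖GG s0 s1 Z h v v' n‖ ^ 2 / (n : ℝ)‖ ≤
      FF Z v v' n * ((7 / 5 : ℝ) ^ l)⁻¹ := by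
    intro n
    by_cases hn : ArithmeticFunction.cardFactors n ≤ l
    · rw [eql_GT hs0 hs1 Z h v v' n hn, sub_self, norm_zero]
      exact mul_nonneg (FF_nonneg _ _ _ _) (by positivity)
    · push Not at hn
      rw [← sub_div, norm_div, Real.norm_eq_abs, Real.norm_eq_abs, Nat.abs_cast]
      have h1 : |‖GT l s0 s1 Z h v v' n‖ ^ 2 - ‖GG s0 s1 Z h v v' n‖ ^ 2| ≤ gg Z v v' n ^ 2 := by
        have a1 := pow_le_pow_left₀ (norm_nonneg _) (d1 n) 2
        have a2 := pow_le_pow_left₀ (norm_nonneg _) (d2 n) 2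
        rw [abs_le]
        constructor
        · have := sq_nonneg ‖GT l s0 s1 Z h v v' n‖
          linarith
        · have := sq_nonneg ‖GG s0 s1 Z h v v' n‖
          linarith
      have h2 : (1 : ℝ) ≤ (7 / 5 : ℝ) ^ (ArithmeticFunction.cardFactors n) * ((7 / 5 : ℝ) ^ l)⁻¹ := by
        rw [← div_eq_mul_inv, le_div_iff₀ (by positivity), one_mul]
        exact pow_le_pow_right₀ (by norm_num) hn.le
      calc |‖GT l s0 s1 Z h v v' n‖ ^ 2 - ‖GG s0 s1 Z h v v' n‖ ^ 2| / (n : ℝ)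
          ≤ gg Z v v' n ^ 2 / (n : ℝ) := div_le_div_of_nonneg_right h1 (Nat.cast_nonneg n)
        _ ≤ gg Z v v' n ^ 2 / (n : ℝ) *
            ((7 / 5 : ℝ) ^ (ArithmeticFunction.cardFactors n) * ((7 / 5 : ℝ) ^ l)⁻¹) :=
            le_mul_of_one_le_right (by positivity) h2
        _ = FF Z v v' n * ((7 / 5 : ℝ) ^ l)⁻¹ := by
            unfold FF
            ring
  rw [← Real.norm_eq_abs]
  refine (tsum_of_norm_bounded (hS.mul_right _).hasSum hterm).trans ?_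
  rw [tsum_mul_right, div_eq_mul_inv]
  exact mul_le_mul_of_nonneg_right hle (by positivity)

end

end Pool.Agent.Q153.EW
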